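import Mathlib
import Pool.Agent.Helper51.MoDefs
import Pool.Agent.Helper16.MD.All

open Pool.Agent.Helper51.Morse

namespace Pool.Agent.Results.MP_f13728_an.AllMorse

/-- For every generalized Morse sequence `x = b⁰ × b¹ × ⋯` the system `(X_x, S)` is Moebius
disjoint. -/
theorem result (b : ℕ → Word) (x : ℕ → Bool) (hx : IsMorse b x) :
    MoebiusDisjoint (morseMap x) :=
  Pool.Agent.Helper16.MD.fin_morse Pool.Agent.Helper16.MD.all_ORT b x hx

end Pool.Agent.Results.MP_f13728_an.AllMorse
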